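import Mathlib
import Pool.Agent.R47.DistMat

/-!
# A median graph with a triametral triple containing no peripheral vertex
-/

set_option autoImplicit false

namespace Pool.Agent.Results.MP_2f8eff_co.MedianNoPeripheral

variable {V : Type*}

/-- The interval `[u, v]`: the vertices on a shortest `u`-`v` path. -/
def interval (G : SimpleGraph V) (u v : V) : Set V := {x | G.dist u x + G.dist x v = G.dist u v}

/-- A median graph: connected, and any three intervals of a triple meet in one vertex. -/
def IsMedian (G : SimpleGraph V) : Prop :=
  G.Connected ∧ ∀ u v w, ∃! x, x ∈ interval G u v ∧ x ∈ interval G u w ∧ x ∈ interval G v w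

/-- `x` is peripheral: some vertex is at distance `diam(G)` from it. -/
def IsPeripheral (G : SimpleGraph V) (x : V) : Prop := ∃ y, ∀ u v, G.dist u v ≤ G.dist x y

/-- `d(a, b, c) = d(a, b) + d(b, c) + d(a, c)`. -/
noncomputable def dist3 (G : SimpleGraph V) (a b c : V) : ℕ :=
  G.dist a b + G.dist b c + G.dist a c

/-- `a, b, c` is a triametral triple. -/
def IsTriametral (G : SimpleGraph V) (a b c : V) : Prop := ∀ u v w, dist3 G u v w ≤ dist3 G a b c

/-- Codes of the vertices of the example (the Lucas cube of dimension 6): the 6-bit numbers with no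
two cyclically consecutive ones. -/
def code : Fin 18 → ℕ :=
  ![0, 1, 2, 4, 5, 8, 9, 10, 16, 17, 18, 20, 21, 32, 34, 36, 40, 42]

/-- Distance matrix of the example in base 16. -/
def D (u v : Fin 18) : ℕ :=
  (0x13126535413254243102215444322143332320213244344321332122015424324343132211104333233232221653540131253412423542431022144321332344233202124343132544431220142323312433322111033232221124235424302143132324433442320123312213324333211032221542431242342301312431322133233210221233124313213232021433322331231212201322213222122121110 >>> (4 * (18 * u.val + v.val))) % 16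

/-- The example. -/
def ex : SimpleGraph (Fin 18) where
  Adj u v := D u v = 1
  symm := ⟨by decide +kernel⟩
  loopless := ⟨by decide +kernel⟩

theorem ex_dist : ex.Preconnected ∧ ∀ u v, ex.dist u v = D u v := by
  apply Pool.Agent.R47.DistMat.dist_eq
  · decide +kernel
  · show ∀ u v w, D v w = 1 → D u w ≤ D u v + 1
    decide +kernel
  · show ∀ u v, u ≠ v → ∃ w, D w v = 1 ∧ D u w + 1 = D u v
    decide +kernel

/-- There is a median graph with a triametral triple none of whose vertices is peripheral. -/
theorem result : ∃ (n : ℕ) (G : SimpleGraph (Fin n)), IsMedian G ∧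
    ∃ a b c, IsTriametral G a b c ∧ ¬ IsPeripheral G a ∧ ¬ IsPeripheral G b ∧
      ¬ IsPeripheral G c := by
  obtain ⟨hc, hd⟩ := ex_dist
  refine ⟨18, ex, ⟨⟨hc⟩, ?_⟩, 6, 10, 15, ?_, ?_⟩
  · simp only [interval, hd, Set.mem_ofPred_eq, ExistsUnique]
    decide +kernel
  · simp only [IsTriametral, dist3, hd]
    decide +kernel
  · simp only [IsPeripheral, hd]
    decide +kernel

end Pool.Agent.Results.MP_2f8eff_co.MedianNoPeripheral
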